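import Pool.Agent.V5helper77.WM.Main

/-!
# The weight-monodromy conjecture, trilinear forms and tripartite hypergraphs

For a scheme `X` over a field of characteristic zero the graded pieces `Gr^W_w H^n_c(X)` of the cohomology
with compact support are motives (André's motives); `T` are such theories of motives over the local
fields `K` and over `ℚ`, with their `ℓ`-adic realizations over `K̄` (coefficients `Ω = ℚ̄_ℓ`), given with the
action of a geometric Frobenius and the monodromy operator. `H^n(X_{K̄}) = Gr^W_n H^n_c(X_{K̄})` for smooth
projective varieties.

Idea of the proof. The category of motives is semisimple, so the motives with mw pure realization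
of a given weight form a Serre class, and in the long exact sequences of closed-open decompositions
the property that all graded pieces are mw pure passes from two of the three schemes to the third. By
Hironaka's theorem it holds for all schemes of dimension at most `n` if it holds for the smooth
projective varieties of dimension at most `n`. Now let `W` be the closed subscheme of an affine space
given by the bilinear equations `S(x, y, ·) = 0`. The hypersurface `S(x, y, z) = 1` is an affine bundle
over the complement of `W`. Every affine scheme `X` of finite type has a presentation by sums of
monomials, and `X × 𝔾_m × 𝔾_m` is the difference of two such schemes `W`. The dimension is under control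
because `W` is, over the locus in the space of the variables of the shortest block where the rank of
`S` is constant, a vector bundle, and conversely every closed subscheme of an affine space is such a
locus for matrices of linear forms. Varieties over `K` are reduced to varieties over number fields by
the local constancy of the Galois representations in `p`-adic families.
-/

set_option autoImplicit false

open CategoryTheory AlgebraicGeometry
open Pool.Agent.Y116.UV Pool.Agent.V5helper77.GW Pool.Agent.V5helper77.WM

namespace Pool.Agent.Results.MP_855f4c_ag.TrilinearForms

/-- **The weight-monodromy conjecture and trilinear forms.** Let `K` be a henselian local field of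
characteristic zero with finite residue field of characteristic different from `ℓ`.
(1) For all hypersurfaces `X : S(x, y, z) = 1`, `S` a trilinear form over `K` one of whose three blocks of
variables has at most four variables, all `Gr^W_w H^i_c(X_{K̄})` are mw pure of weight `w`. The dimension
of `X` is not bounded.
(2) For every `n` the following are equivalent: the conjecture for all smooth projective varieties over
`K` of dimension at most `n`; mw purity of all `Gr^W_w H^i_c(X_{K̄})` for all separated schemes `X` of finite
type over `K` of dimension at most `n`; the same for all hypersurfaces `X : S(x, y, z) = 1`, `S` a
trilinear form over `K` with a block of at most `n + 2` variables.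
(3) The conjecture for all smooth projective varieties over all such `K` is equivalent to the mw purity,
for all such `K`, of all `Gr^W_w H^i_c(X_{K̄})` for the smooth affine cubic hypersurfaces
`X : ∑_{(i, j, k) ∈ H} x_i y_j z_k = 1` over `ℚ`, `H` any tripartite hypergraph. -/
theorem result {Ω : Type} [Field Ω] [CharZero Ω] (ℓ : ℕ) (T : Data Ω) (hT : IsTheory ℓ T)
    (hH : ∀ (k : Type) [Field k] [CharZero k], Hironaka k) :
    (∀ B : Trait, B.p ≠ ℓ → (T.loc B).CubicsUpTo B.q 4) ∧
    (∀ B : Trait, B.p ≠ ℓ → ∀ n : ℕ,
      ((T.loc B).SmProjUpTo B.q n ↔ (T.loc B).SchemesUpTo B.q n) ∧
      ((T.loc B).SmProjUpTo B.q n ↔ (T.loc B).CubicsUpTo B.q (n + 2))) ∧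
    (WeightMonodromy ℓ T ↔ HypergraphCubics ℓ T) :=
  ⟨fun B hB => blocks_four hT hH B hB, fun B hB n => local_graded hT hH B hB n, graph_iff hT hH⟩

end Pool.Agent.Results.MP_855f4c_ag.TrilinearForms
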